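import Pool.Agent.Q67.TP.AS

/-!
# MP_caab05_ag: the de Rham-Betti classes with algebraic coefficients
-/

set_option autoImplicit false

open CategoryTheory AlgebraicGeometry

universe u

namespace Pool.Agent.Results.MP_caab05_ag.AlgebraicCoefficients

open Pool.Agent.H914
open Pool.Agent.Q67.TP.S

/-- Let `S` be a theory consisting of a Hodge theory (a Weil cohomology theory with rational
coefficients with a Hodge decomposition of its cohomology with complex coefficients) and of the
algebraic de Rham cohomology over the field `Q̄` of the algebraic numbers, a graded subspace of the
cohomology with complex coefficients which is stable under products and pull-backs and contains the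
classes `(2 π i) ^ j cl(z)`. The de Rham-Betti classes with algebraic coefficients on `X`, the
elements of `drbA S X`, are the classes `x` which are combinations with coefficients in `Q̄` of
rational classes of degree `2 j` such that `(2 π i) ^ j x` lies in the algebraic de Rham cohomology.
They correspond to the points over `Q̄` of the linear equations for the periods of `X`.

Let `C` be a system of classes which are both Hodge classes and (rational) de Rham-Betti classes,
which contains the classes of algebraic cycles and is stable under products, pull-backs and
push-forwards (for example the motivated classes), such that a polarisation of the cohomology of `X`
and the projector to the odd cohomology are given by classes in `C`. Then there is `N` in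
`{1, 2, ..., ∞}` such that the quotients of the dimension of the space of the de Rham-Betti classes
with algebraic coefficients on `X^n` by the dimension of the space spanned by `C` converge to `N`,
and

* `N = 1` if and only if all de Rham-Betti classes with algebraic coefficients on all powers of `X`
  are linear combinations of classes in `C`; otherwise asymptotically the space spanned by `C` is at
  most one half of the space of these classes;
* if the transcendence degree of the field of the periods of `X` is equal to `lieDim C X + 1` (the
  dimension of the motivic Galois group of `X` if `C` consists of the motivated classes and `X` is
  of positive dimension), then `N` is finite;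
* if `N` is finite, then all de Rham-Betti classes with algebraic coefficients on all powers of `X`
  are linear combinations of rational Hodge classes. -/
theorem result {k : Type u} [Field k] {𝒱 : VarClass k} {ops : CycleOps 𝒱} (S : Theory ops)
    (X : 𝒱.Obj) [Nontrivial (RH S.T X)] (C : Classes S.T) (hC : IsSystem S C) (u : ROp S.T X)
    (hu : PolarisedBy C X u) (ho : OddIn C X) :
    ∃ N : ℕ∞, LawA S C X N ∧ (trdegOf (periods S X) = (lieDim C X + 1 : ℕ) → N ≠ ⊤) ∧
      (N ≠ ⊤ → ∀ n, InA S (hodge S.T) (Pool.Agent.Y133.Half.pw X n)) :=
  algebraic_law S X C hC u hu ho

end Pool.Agent.Results.MP_caab05_ag.AlgebraicCoefficients
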