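import Pool.Agent.Q67.TP.LFinal

/-!
# MP_caab05_ag: consequences of the equality for the classes on the powers
-/

set_option autoImplicit false

open CategoryTheory AlgebraicGeometry

universe u

namespace Pool.Agent.Results.MP_caab05_ag.EqualityAndClasses

open Pool.Agent.H914
open Pool.Agent.Q67.TP.S

/-- Let `S` be a theory consisting of a Hodge theory (a Weil cohomology theory with rational
coefficients with a Hodge decomposition of its cohomology with complex coefficients) and of the
algebraic de Rham cohomology over the field of the algebraic numbers, a graded subspace of the
cohomology with complex coefficients which is stable under products and pull-backs and contains the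
classes `(2 π i) ^ j cl(z)`. Let `C` be a system of classes which are both Hodge classes and de
Rham-Betti classes, which contains the classes of algebraic cycles and is stable under products,
pull-backs and push-forwards (for example the motivated classes, the classes fixed by the motivic
Galois group), such that a polarisation of the cohomology of `X` and the projector to the odd
cohomology are given by classes in `C` (this is the case for the motivated classes). `lieDim C X` is
the dimension of the Lie algebra of the operators on the cohomology of `X` which kill (as
derivations) the classes in `C` on all powers of `X`; so `lieDim C X + 1` is the dimension of the
motivic Galois group of `X` if `C` consists of the motivated classes and `X` is of positive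
dimension (one dimension is due to the Tate twists).

Then there is `N` in `{1, 2, ..., ∞}` such that the quotients of the dimension of the space of the
de Rham-Betti classes on `X^n` by the dimension of the space spanned by `C` converge to `N`, and

* `N = 1` if and only if all de Rham-Betti classes on all powers of `X` are linear combinations of
  classes in `C`; otherwise asymptotically at most one half of them are;
* if `N` is finite, then `N - 1` de Rham-Betti classes on powers of `X` generate all of them
  over `C`;
* `N` is finite if and only if all operators which kill `C` on all powers kill the de Rham-Betti
  classes on all powers, and if and only if all de Rham-Betti classes on all powers of `X` are Hodge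
  classes and the operators which kill `C` on all powers kill the classes which are both Hodge and
  de Rham-Betti classes;
* the transcendence degree of the field of the periods of `X` is at most `lieDim C X + 1`, and if
  it is equal to this number, then `N` is finite. -/
theorem result {k : Type u} [Field k] {𝒱 : VarClass k} {ops : CycleOps 𝒱} (S : Theory ops)
    (X : 𝒱.Obj) [Nontrivial (RH S.T X)] (C : Classes S.T) (hC : IsSystem S C) (u : ROp S.T X)
    (hu : PolarisedBy C X u) (ho : OddIn C X) :
    ∃ N : ℕ∞, Law (drb S) C X N ∧ trdegOf (periods S X) ≤ (lieDim C X + 1 : ℕ) ∧
      (trdegOf (periods S X) = (lieDim C X + 1 : ℕ) → N ≠ ⊤) ∧
      (N ≠ ⊤ ↔ Sub (drb S) (hodge S.T) X ∧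
        lie C X ⊆ lie (meet (hodge S.T) (drb S)) X) :=
  law_drb S X C hC u hu ho

end Pool.Agent.Results.MP_caab05_ag.EqualityAndClasses
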