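import Pool.Agent.Q193.LT.Sums
import Pool.Agent.Q193.LT.Per

/-!
# The period conjecture and tripartite hypergraphs

Let `K ⊂ ℂ` be the field of algebraic numbers, and let `M` be the category of the pure motives over `K`
in the sense of Nori (it is the category of André's motives for motivated cycles), a semisimple abelian
category with Tate twists `N ↦ N(a)`. For a separated scheme `X` of finite type over `ℚ` let `D.H i X`
be the object of `M` given by the graded object of the weight filtration of the cohomology with compact
supports `H^i_c(X_K)`; for smooth projective `X` it is the motive `h^i(X_K)`. As the weight filtration
is strict, the long exact sequence of a closed subscheme and its open complement gives an exact sequence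
in `M`.

`P` consists of the de Rham realization, the Betti realization, the comparison isomorphism and, for each
motive `N`, the dimension of the motivic Galois group of `N`. The conjecture `GPC P N` says that the
transcendence degree over `K` of the field of periods of `N` is this dimension. It is inherited by the
objects of the Tannakian category generated by `N`.

Every irreducible smooth projective variety over `K` is a connected component of `Y_K` for a smooth
projective variety `Y` over `ℚ`; and every finite direct sum `⨁_j h^{i_j}((Y_j)_K)(a_j)` lies in the
Tannakian category generated by `h(X)` for an irreducible smooth projective variety `X` over `K` (the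
product of the components of the `(Y_j)_K` and of a projective line). Therefore the conjecture of
question Q1 for all `X` says that `GPC P` is true for all finite direct sums of Tate twists of motives
`h^i(Y_K)`, `Y` smooth projective over `ℚ`: this is `SumsHave D (OfProjAll D) (GPC P)`.

For a finite set `H` of triples `(i, j, l)` (a tripartite hypergraph) let `X_H` be the smooth affine
cubic hypersurface `∑_{(i, j, l) ∈ H} x_i y_j z_l = 1` over `ℚ`.

**Theorem.** The period conjecture is true for all smooth projective varieties over the field of
algebraic numbers if and only if it is true for all finite direct sums of Tate motives and of Tate twists
of motives `Gr^W H^i_c((X_H)_K)`, where the `H` are finite sets of triples.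
-/

set_option autoImplicit false

open CategoryTheory CategoryTheory.Limits AlgebraicGeometry Pool.Agent.Y116.UV Pool.Agent.Z125.UN
  Pool.Agent.Q193.LT

universe v u

namespace Pool.Agent.Results.MP_caab05_ag.HypergraphMotives

/-- **The period conjecture and tripartite hypergraphs.** See the explanations above. -/
theorem result {K : Type} [Field K] [CharZero K] [IsAlgClosure ℚ K] [Algebra K ℂ] {M : Type u}
    [Category.{v} M] [Abelian M] {D : CompactData ℚ M} (h : IsMotives D) {P : PeriodData K M}
    (hP : IsPeriod P) :
    SumsHave D (OfProjAll D) (GPC P) ↔ SumsHave D (OfGraphs D) (GPC P) :=
  sums_graph_iff h.compact h.generated h.semisimple (GPC.factor hP) frac_rat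

end Pool.Agent.Results.MP_caab05_ag.HypergraphMotives
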