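import Pool.Agent.Y985.OR.Final
import Pool.Agent.Q311.MV.Grp
import Pool.Agent.H340R2.LW

/-!
# Families of varieties of odd and of even dimension at once, over bases of any dimension: transcendence degree and
# relations of the periods at almost all algebraic points

Let `Y j`, `j` in a finite set `κ`, be the period matrices of the (primitive, or vanishing) middle cohomology of families
of smooth projective varieties over a connected open subset `U` of an affine space, some of odd and some of even
dimension (for instance hypersurfaces or complete intersections; rows: algebraic de Rham side, columns: Betti side). The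
cup product gives the relations `(Y j)ᵀ J'_j(x) (Y j) = J_j` with `J'_j` over the algebraic numbers and
`J_j = (2 π i) ^ (w_j) B_j` alternating or symmetric.

(A) If the monodromy contains enough transvections respectively reflections in every factor then its Zariski closure
contains the product of all isometry groups.

(B) If the Zariski closure contains the product of the symplectic and special orthogonal groups, the weak and the
strong form of the conjecture hold up to any given degree and height for almost all fibres `∏ X_(j,s)`: some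
`r = ∑ n_j (n_j ∓ 1) / 2` of the periods are independent over arbitrary constants, `r + 1` numbers including `2 π i` are
independent (`r + 1` is an upper bound for the dimension of the motivic Galois group and of the transcendence degree),
and all relations are consequences of the cup product and the determinants.
-/

set_option autoImplicit false

open Filter NumberField Matrix Pool.Agent.Q311.MV
open Pool.Agent.Y119.PLM (MT Ix IsMon DenseMon Big pe)
open Pool.Agent.Y890.MV (InnerM)
open Pool.Agent.Y985.OR (BigO DenseS Fam SymSk IsoS)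

namespace Pool.Agent.Results.MP_caab05_ag.OddAndEvenDimensions

/-- the number `2 π i` -/
noncomputable def tpi : ℂ := 2 * Real.pi * Complex.I

open Classical in
/-- the dimension of the product of the special orthogonal and the symplectic groups of the forms `J j`: the sum of
`n_j (n_j - 1) / 2` for symmetric and of `n_j (n_j + 1) / 2` for the other (alternating) forms -/
noncomputable def dim {κ : Type} [Fintype κ] {n : κ → ℕ} (J : MT n) : ℕ :=
  ∑ j, if (J j)ᵀ = J j then n j * (n j - 1) / 2 else n j * (n j + 1) / 2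

/-- the polynomial in the `y i`, of degree at most `k` in each of them, with the coefficients `∑ a, c l a * ξ a` -/
noncomputable def value {r k : ℕ} (c : (Fin r → Fin (k + 1)) → Fin k → ℂ) (ξ : Fin k → ℂ) (y : Fin r → ℂ) : ℂ :=
  ∑ l : Fin r → Fin (k + 1), (∑ a, c l a * ξ a) * ∏ i, y i ^ (l i : ℕ)

/-- The periods `y` (a value of `Y` at the point `s`) are generic for relations of degree at most `k` with coefficients
`∑ a, ξ a * c a`, `c a` integers of `K` with all conjugates at most `T ^ k`:
(1) every such relation between the entries of `y` holds for all tuples of matrices `A` with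
`(A j)ᵀ * J' j (s) * A j = J j` and `det (A j) = det (y j)`;
(2) `r` entries of `y`, `r` the dimension of the product of the groups, satisfy no nontrivial such relation, and if the
`ξ a` are the powers of `2 π i` then all `c a` in such a relation between them are zero: the `r` entries and
`2 π i` are independent. -/
def Generic {X κ : Type} [Fintype X] [Fintype κ] {n : κ → ℕ} (J : MT n)
    (J' : (j : κ) → Matrix (Fin (n j)) (Fin (n j)) (MvPolynomial X ℂ))
    (K : Type) [Field K] [NumberField K] (io : K →+* ℂ) (k : ℕ) (ξ : Fin k → ℂ) (T : ℝ) (s : X → ℂ) (y : MT n) : Prop :=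
  (∀ P : MvPolynomial (Ix n) ℂ, (∀ i, P.degreeOf i ≤ k) →
    (∀ m, ∃ c : Fin k → 𝓞 K, (∀ a (φ : K →+* ℂ), ‖φ (c a : K)‖ ≤ T ^ k) ∧ P.coeff m = ∑ a, ξ a * io (c a : K)) →
    pe P y = 0 → ∀ A : MT n, (∀ j, (A j)ᵀ * (J' j).map (MvPolynomial.eval s) * A j = J j ∧ (A j).det = (y j).det) →
      pe P A = 0) ∧
  ∃ σ : Fin (dim J) → Ix n, Function.Injective σ ∧
    ∀ c : (Fin (dim J) → Fin (k + 1)) → Fin k → 𝓞 K, (∀ l a (φ : K →+* ℂ), ‖φ (c l a : K)‖ ≤ T ^ k) →
      value (fun l a => io (c l a : K)) ξ (fun i => y (σ i).1 (σ i).2.1 (σ i).2.2) = 0 →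
        (∀ l, ∑ a, io (c l a : K) * ξ a = 0) ∧ ((∀ a, ξ a = tpi ^ (a : ℕ)) → ∀ l a, c l a = 0)

/-- the points with coordinates in `K` of height at most `T`, of norm at most `k` and at distance at least `1 / k` from the
complement of `U`, at which the values of `Y` are not generic -/
def Exceptional {X κ : Type} [Fintype X] [Fintype κ] {n : κ → ℕ} (J : MT n)
    (J' : (j : κ) → Matrix (Fin (n j)) (Fin (n j)) (MvPolynomial X ℂ)) (U : Set (X → ℂ)) (Y : (X → ℂ) → MT n)
    (k : ℕ) (K : Type) [Field K] [NumberField K] (io : K →+* ℂ) (ξ : Fin k → ℂ) (T : ℝ) : Set (X → K) :=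
  {s | (∀ i, Y120.HtLe K T (s i)) ∧ (fun i => io (s i)) ∈ InnerM U k ∧
    ¬ Generic J J' K io k ξ T (fun i => io (s i)) (Y fun i => io (s i))}

/-- the powers of `2 π i` are independent over the algebraic numbers -/
theorem tpi_indep {k : ℕ} (K : Type) [Field K] [NumberField K] (io : K →+* ℂ) (c : Fin k → K)
    (h : ∑ a, io (c a) * tpi ^ (a : ℕ) = 0) : ∀ a, c a = 0 := by
  classical
  let p : Polynomial K := ∑ a : Fin k, Polynomial.monomial (a : ℕ) (c a)
  have hp : Polynomial.eval₂ io tpi p = 0 := by
    rw [Polynomial.eval₂_finsetSum]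
    rw [← h]
    refine Finset.sum_congr rfl fun a _ => ?_
    rw [Polynomial.eval₂_monomial]
  have htr : Transcendental ℚ tpi := by
    intro h1
    have h2 : IsAlgebraic ℚ (tpi ^ 2) := h1.pow 2
    have h3 : tpi ^ 2 = algebraMap ℚ ℂ (-4) * (Real.pi : ℂ) ^ 2 := by
      unfold tpi
      rw [mul_pow, mul_pow, Complex.I_sq]
      norm_num
    have h4 : (Real.pi : ℂ) ^ 2 = algebraMap ℚ ℂ (-4)⁻¹ * tpi ^ 2 := by
      rw [h3, ← mul_assoc, ← map_mul]
      norm_num
    have h5 : IsAlgebraic ℚ ((Real.pi : ℂ) ^ 2) := by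
      rw [h4]
      exact (isAlgebraic_algebraMap _).mul h2
    exact Pool.Agent.H340R2.LW.transcendental_pi_complex (h5.of_pow two_pos)
  have hp0 : p = 0 := by
    by_contra hne
    apply htr
    let _ : Algebra K ℂ := io.toAlgebra
    have h6 : IsAlgebraic K tpi := ⟨p, hne, hp⟩
    have : IsScalarTower ℚ K ℂ := IsScalarTower.of_algebraMap_eq fun q => by
      rw [eq_ratCast]
      exact (map_ratCast (algebraMap K ℂ) q).symm.trans (by rw [eq_ratCast])
    exact h6.restrictScalars ℚ
  intro a
  have h7 : p.coeff (a : ℕ) = c a := by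
    rw [Polynomial.finsetSum_coeff, Finset.sum_eq_single a]
    · rw [Polynomial.coeff_monomial, if_pos rfl]
    · intro b _ hb
      rw [Polynomial.coeff_monomial, if_neg (fun h8 => hb (Fin.ext h8))]
    · intro h8
      exact absurd (Finset.mem_univ a) h8
  rw [← h7, hp0, Polynomial.coeff_zero]

theorem generic_of {X κ : Type} [Fintype X] [Fintype κ] {n : κ → ℕ} {J : MT n}
    {J' : (j : κ) → Matrix (Fin (n j)) (Fin (n j)) (MvPolynomial X ℂ)} (hJ : SymSk J)
    (K : Type) [Field K] [NumberField K] (io : K →+* ℂ) (k : ℕ) (ξ : Fin k → ℂ) (T : ℝ) (hT : 0 ≤ T) (s : X → ℂ)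
    (y : MT n) (hy : ∀ j, (y j)ᵀ * (J' j).map (MvPolynomial.eval s) * y j = J j)
    (h : ∀ P : MvPolynomial (Ix n) ℂ, (∀ i, P.degreeOf i ≤ k) →
      (∀ m, ∃ c : Fin k → 𝓞 K, (∀ a (φ : K →+* ℂ), ‖φ (c a : K)‖ ≤ T ^ k) ∧ P.coeff m = ∑ a, ξ a * io (c a : K)) →
      pe P y = 0 → ∀ A : MT n, (∀ j, (A j)ᵀ * (J' j).map (MvPolynomial.eval s) * A j = J j ∧ (A j).det = (y j).det) →
        pe P A = 0) : Generic J J' K io k ξ T s y := by
  classical
  refine ⟨h, ?_⟩
  have hyd : ∀ j, (y j).det ≠ 0 := by
    intro j h0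
    apply (hJ j).2
    rw [← hy j, det_mul, h0, mul_zero]
  have hdim : DimGe {g | IsoS J g} (dim J) := by
    have h1 := dimGe_isoS hJ
    have h2 : dimIso n (fun j => (J j)ᵀ = J j) = dim J := by
      unfold dimIso dim
      refine Finset.sum_congr rfl fun j _ => ?_
      by_cases hs : (J j)ᵀ = J j
      · simp only [if_pos hs]
      · simp only [if_neg hs]
    rw [← h2]
    exact h1
  obtain ⟨σ, hσ⟩ := exists_coord_mul (S := {g | IsoS J g}) hdim y hyd
  have hσi : Function.Injective σ := by
    intro i i' hii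
    by_contra hne
    have h1 := hσ (MvPolynomial.X i - MvPolynomial.X i') (fun g _ => by
      rw [map_sub, MvPolynomial.eval_X, MvPolynomial.eval_X, hii, sub_self])
    exact hne (MvPolynomial.X_injective (sub_eq_zero.1 h1))
  refine ⟨σ, hσi, fun c hc hv => ?_⟩
  set q : MvPolynomial (Fin (dim J)) ℂ := ∑ l : Fin (dim J) → Fin (k + 1), MvPolynomial.monomial
    (Finsupp.equivFunOnFinite.symm fun i => (l i : ℕ)) (∑ a, io (c l a : K) * ξ a) with hq
  have hqe : ∀ z : Fin (dim J) → ℂ, MvPolynomial.eval z q = value (fun l a => io (c l a : K)) ξ z := by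
    intro z
    rw [hq, map_sum]
    refine Finset.sum_congr rfl fun l _ => ?_
    rw [MvPolynomial.eval_monomial, Finsupp.prod_fintype _ _ (fun i => pow_zero _)]
    rfl
  have hinj : Function.Injective (fun l : Fin (dim J) → Fin (k + 1) =>
      (Finsupp.equivFunOnFinite.symm fun i => (l i : ℕ) : Fin (dim J) →₀ ℕ)) := by
    intro l l' hll
    funext i
    exact Fin.ext (DFunLike.congr_fun hll i)
  have hqc : ∀ l : Fin (dim J) → Fin (k + 1),
      q.coeff (Finsupp.equivFunOnFinite.symm fun i => (l i : ℕ)) = ∑ a, io (c l a : K) * ξ a := by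
    intro l
    rw [hq, MvPolynomial.coeff_sum, Finset.sum_eq_single l]
    · rw [MvPolynomial.coeff_monomial, if_pos rfl]
    · intro l' _ hl
      rw [MvPolynomial.coeff_monomial, if_neg (fun h7 => hl (hinj h7))]
    · intro h7
      exact absurd (Finset.mem_univ _) h7
  have hqcoef : ∀ m, ∃ d : Fin k → 𝓞 K, (∀ a (φ : K →+* ℂ), ‖φ (d a : K)‖ ≤ T ^ k) ∧
      q.coeff m = ∑ a, ξ a * io (d a : K) := by
    intro m
    by_cases hm : ∃ l : Fin (dim J) → Fin (k + 1), (Finsupp.equivFunOnFinite.symm fun i => (l i : ℕ)) = m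
    · obtain ⟨l, rfl⟩ := hm
      refine ⟨c l, hc l, ?_⟩
      rw [hqc]
      exact Finset.sum_congr rfl fun a _ => mul_comm _ _
    · push Not at hm
      refine ⟨0, fun a φ => ?_, ?_⟩
      · simpa using pow_nonneg hT k
      · rw [hq, MvPolynomial.coeff_sum, Finset.sum_eq_zero]
        · simp
        · intro l _
          rw [MvPolynomial.coeff_monomial, if_neg (hm l)]
  have hqd : ∀ i, q.degreeOf i ≤ k := by
    intro i
    rw [hq]
    refine (MvPolynomial.degreeOf_sum_le _ _ _).trans (Finset.sup_le fun l _ => ?_)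
    by_cases h5 : (∑ a, io (c l a : K) * ξ a) = 0
    · rw [h5, MvPolynomial.monomial_zero, MvPolynomial.degreeOf_zero]
      exact Nat.zero_le _
    · rw [MvPolynomial.degreeOf_monomial_eq _ _ h5]
      exact Nat.lt_succ_iff.1 (l i).2
  have hq0 : q = 0 := by
    refine hσ q fun g hg => ?_
    have h2 := h (MvPolynomial.rename σ q) ?_ ?_ ?_ (y * g) ?_
    · unfold pe at h2
      rw [MvPolynomial.eval_rename] at h2
      exact h2
    · intro i
      by_cases hi : ∃ i', σ i' = i
      · obtain ⟨i', rfl⟩ := hi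
        rw [MvPolynomial.degreeOf_rename_of_injective hσi]
        exact hqd i'
      · rw [MvPolynomial.degreeOf_eq_sup]
        refine Finset.sup_le fun m hm => ?_
        have h3 := MvPolynomial.support_rename_of_injective (p := q) hσi
        rw [h3, Finset.mem_image] at hm
        obtain ⟨m', _, rfl⟩ := hm
        rw [Finsupp.mapDomain_of_notMem_range _ _ (by
          rintro ⟨i', hi'⟩
          exact hi ⟨i', hi'⟩)]
        exact Nat.zero_le _
    · intro m
      by_cases hm : ∃ u, Finsupp.mapDomain σ u = m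
      · obtain ⟨u, rfl⟩ := hm
        rw [MvPolynomial.coeff_rename_mapDomain σ hσi]
        exact hqcoef u
      · refine ⟨0, fun a φ => ?_, ?_⟩
        · simpa using pow_nonneg hT k
        · rw [MvPolynomial.coeff_rename_eq_zero σ q m (fun u hu => absurd ⟨u, hu⟩ hm)]
          simp
    · unfold pe
      rw [MvPolynomial.eval_rename]
      exact (hqe _).trans hv
    · intro j
      refine ⟨?_, ?_⟩
      · have h4 : ((y * g) j)ᵀ * (J' j).map (MvPolynomial.eval s) * (y * g) j =
            (g j)ᵀ * ((y j)ᵀ * (J' j).map (MvPolynomial.eval s) * y j) * g j := by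
          rw [Pi.mul_apply, transpose_mul]
          simp only [mul_assoc]
        rw [h4, hy, (hg j).1]
      · rw [Pi.mul_apply, det_mul, (hg j).2, mul_one]
  have hz : ∀ l, ∑ a, io (c l a : K) * ξ a = 0 := by
    intro l
    rw [← hqc l, hq0, MvPolynomial.coeff_zero]
  refine ⟨hz, fun hξ l a => ?_⟩
  have h8 := hz l
  simp only [hξ] at h8
  have h9 := tpi_indep K io (fun a => (c l a : K)) h8 a
  exact_mod_cast h9

/-- Let `U` be a connected open subset of `ℂ ^ X`, `Y j` square matrices of analytic functions on `U`, `J j` invertible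
symmetric or alternating matrices and `J' j` matrices over `ℂ[x]` with `(Y j)ᵀ * J' j * Y j = J j` on `U`.

(A) For every `j` let `J j` be symmetric and `BigO` (the reflections in the monodromy concentrated in the factor `j` act
irreducibly, and two of them have a product of infinite order), or alternating and `Big` (the unipotent elements of the
monodromy concentrated in the factor `j` act irreducibly, and one of them is a transvection). Then polynomials which
vanish on the monodromy vanish at all tuples of isometries of the forms `J j`.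

(B) If polynomials which vanish on the monodromy vanish at all tuples of isometries of the `J j` of determinant one
(`DenseS`) there is `ω → ∞` such that for all large `T`, all number fields `K` of degree at most `ω T`, all embeddings and
all complex numbers `ξ a`, `a < ω T`: the exceptional points lie on at most `T ^ (1 / ω T)` hypersurfaces of degree at most
`T ^ (1 / ω T)`, and there are at most `T ^ (1 / ω T) * N ^ (|X| - 1)` of them, `N` being the number of elements of `K` of
height at most `T`. -/
theorem result {X κ : Type} [Fintype X] [DecidableEq X] [Nonempty X] [Fintype κ] [DecidableEq κ] (n : κ → ℕ)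
    (J : MT n) (J' : (j : κ) → Matrix (Fin (n j)) (Fin (n j)) (MvPolynomial X ℂ))
    (hJ : ∀ j, (J j)ᵀ = J j ∨ (J j)ᵀ = -J j) (hdet : ∀ j, (J j).det ≠ 0) (U : Set (X → ℂ)) (hU : IsPreconnected U)
    (hUo : IsOpen U) (hne : U.Nonempty) (Y : (X → ℂ) → MT n) (hY : ∀ j a b, AnalyticOnNhd ℂ (fun x => Y x j a b) U)
    (hsym : ∀ x ∈ U, ∀ j, (Y x j)ᵀ * (J' j).map (MvPolynomial.eval x) * Y x j = J j) :
    ((∀ j, ((J j)ᵀ = J j ∧ BigO J U Y j) ∨ ((J j)ᵀ = -J j ∧ Big U Y j)) → DenseMon U Y J) ∧
    (DenseS U Y J → ∃ (ω : ℝ → ℕ) (T₀ : ℝ), Tendsto ω atTop atTop ∧ Monotone ω ∧ ∀ T, T₀ ≤ T → 0 < ω T ∧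
      ∀ (K : Type) [Field K] [NumberField K], Module.finrank ℚ K ≤ ω T → ∀ (io : K →+* ℂ) (ξ : Fin (ω T) → ℂ),
        Y124.Cov ⌊T ^ ((ω T : ℝ)⁻¹)⌋₊ ⌊T ^ ((ω T : ℝ)⁻¹)⌋₊
          ((fun (s : X → K) i => io (s i)) '' Exceptional J J' U Y (ω T) K io ξ T) ∧
        (Exceptional J J' U Y (ω T) K io ξ T).Finite ∧
        ((Exceptional J J' U Y (ω T) K io ξ T).ncard : ℝ) ≤
          T ^ ((ω T : ℝ)⁻¹) * ({x : K | Y120.HtLe K T x}.ncard : ℝ) ^ (Fintype.card X - 1)) := by
  classical
  have hSS : SymSk J := fun j => ⟨hJ j, hdet j⟩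
  have hF : Fam J J' U Y := ⟨hU, hUo, hne, hY, hSS, hsym⟩
  refine ⟨fun h => Pool.Agent.Y985.OR.dense' X κ n J J' U Y hF h, fun hD => ?_⟩
  obtain ⟨ω, T₀, h1, h2, h3⟩ := Pool.Agent.Y985.OR.main_of Pool.Agent.Y985.OR.fin' hF hD
  refine ⟨ω, max T₀ 0, h1, h2, fun T hT => ⟨(h3 T ((le_max_left _ _).trans hT)).1, fun K _ _ hK io ξ => ?_⟩⟩
  have hT0 : 0 ≤ T := (le_max_right _ _).trans hT
  obtain ⟨h4, h5, h6⟩ := (h3 T ((le_max_left _ _).trans hT)).2 K hK io ξ
  have hpos := (h3 T ((le_max_left _ _).trans hT)).1
  have hsub : Exceptional J J' U Y (ω T) K io ξ T ⊆ Pool.Agent.Y985.OR.ExcE J J' U Y K io (ω T) ξ T := by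
    rintro s ⟨hs1, hs2, hs3⟩
    by_contra hcon
    apply hs3
    refine generic_of hSS K io (ω T) ξ T hT0 _ _ (hsym _ (Pool.Agent.Y890.MV.innerM_sub U hpos hs2)) ?_
    intro P hP hc hv A hA
    by_contra hPA
    refine hcon ⟨hs1, hs2, P, hP, fun m => ?_, hv, A, hA, hPA⟩
    obtain ⟨c, hc1, hc2⟩ := hc m
    refine ⟨c, fun a φ => ?_, hc2⟩
    rw [Real.rpow_natCast]
    exact hc1 a φ
  exact ⟨h4.mono le_rfl le_rfl (Set.image_mono hsub), h5.subset hsub,
    le_trans (by exact_mod_cast Set.ncard_le_ncard hsub h5) h6⟩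

end Pool.Agent.Results.MP_caab05_ag.OddAndEvenDimensions
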